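import Mathlib

/-!
The cube, its bottom face, and a pyramid inside: no plane through an edge of the bottom face that
misses the interior of the pyramid cuts a pyramid off the cube.  So no admissible cutting sequence
reduces the cube to the pyramid.
-/

namespace Pool.Agent.Results.MP_3a21c3_co.CubeNoCut

/-- three-space -/
abbrev V := Fin 3 → ℝ

/-- A convex polyhedron: convex hull of finitely many points with nonempty interior. -/
def IsConvexPolyhedron (P : Set V) : Prop :=
  (∃ s : Finset V, P = convexHull ℝ (s : Set V)) ∧ (interior P).Nonempty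

/-- `F` is a face of dimension `k` of the convex set `P`: it is nonempty, it is the set of points
of `P` where some linear functional attains its maximum over `P`, and its affine hull has
dimension `k`. -/
def IsFaceOfDim (k : ℕ) (P F : Set V) : Prop :=
  F.Nonempty ∧ (∃ l : V →ₗ[ℝ] ℝ, F = {x | x ∈ P ∧ ∀ y ∈ P, l y ≤ l x}) ∧
    Module.finrank ℝ (vectorSpan ℝ F) = k

/-- A generalized dome `G` with base `X`: a convex polyhedron with a 2-face `X` such that every
2-face other than `X` has a vertex (extreme point) in common with `X`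
(sharing an edge is a special case of sharing a vertex). -/
def IsGDome (G X : Set V) : Prop :=
  IsConvexPolyhedron G ∧ IsFaceOfDim 2 G X ∧
    ∀ F, IsFaceOfDim 2 G F → F ≠ X → ∃ p, p ∈ Set.extremePoints ℝ F ∧ p ∈ Set.extremePoints ℝ X

/-- A pyramid: convex hull of a convex polygon `B` (its base) and an apex `a` outside the plane of
the base. -/
def IsPyramid (Q : Set V) : Prop :=
  ∃ (B : Set V) (a : V), (∃ s : Finset V, B = convexHull ℝ (s : Set V)) ∧
    Module.finrank ℝ (vectorSpan ℝ B) = 2 ∧ a ∉ affineSpan ℝ B ∧ Q = convexHull ℝ (insert a B)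

/-- One admissible cut: the plane `{l = c}` contains an edge `E` of `X` and does not meet the
interior of `D` (which lies on the side `l < c`); the closed part `{x ∈ P : c ≤ l x}` of `P` on the
side away from `D` is a pyramid; it is removed, leaving `P'`. -/
def CutStep (X D P P' : Set V) : Prop :=
  ∃ (l : V →ₗ[ℝ] ℝ) (c : ℝ) (E : Set V), l ≠ 0 ∧ IsFaceOfDim 1 X E ∧ (∀ x ∈ E, l x = c) ∧
    (∀ x ∈ interior D, l x < c) ∧ IsPyramid {x | x ∈ P ∧ c ≤ l x} ∧
    P' = closure (P \ {x | x ∈ P ∧ c ≤ l x})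

/-- There is a finite admissible cutting sequence leading from `P` to `D`. -/
def Reducible (X P D : Set V) : Prop := Relation.ReflTransGen (CutStep X D) P D

/-- the unit cube -/
def Cube : Set V := {x | ∀ i, 0 ≤ x i ∧ x i ≤ 1}

/-- its bottom face -/
def Bot : Set V := {x | x ∈ Cube ∧ x 2 = 0}

/-- vertices of the pyramid -/
noncomputable def verts : Finset V :=
  {![0,0,0], ![1,0,0], ![0,1,0], ![1,1,0], ![1/2,1/2,1]}

/-- the pyramid over the bottom face with apex the centre of the top face -/
noncomputable def Pyr : Set V := convexHull ℝ (verts : Set V)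

theorem planar_not_pyramid {Q : Set V} (g : V →ₗ[ℝ] ℝ) (d : ℝ) (hg : g ≠ 0)
    (hQ : ∀ x ∈ Q, g x = d) : ¬ IsPyramid Q := by
  rintro ⟨B, a, _, hB, ha, rfl⟩
  have hsub : insert a B ⊆ convexHull ℝ (insert a B) := subset_convexHull ℝ _
  have haQ : g a = d := hQ a (hsub (Set.mem_insert _ _))
  have hBQ : ∀ x ∈ B, g x = d := fun x hx => hQ x (hsub (Set.mem_insert_of_mem _ hx))
  have hle : vectorSpan ℝ B ≤ LinearMap.ker g := by
    rw [vectorSpan, Submodule.span_le]
    rintro _ ⟨x, hx, y, hy, rfl⟩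
    simp [hBQ x hx, hBQ y hy]
  have hker : Module.finrank ℝ (LinearMap.ker g) = 2 := by
    have h1 := LinearMap.finrank_range_add_finrank_ker g
    have h2 : Module.finrank ℝ (LinearMap.range g) = 1 := by
      have : LinearMap.range g = ⊤ := by
        rw [LinearMap.range_eq_top]
        exact LinearMap.surjective hg
      rw [this, finrank_top, Module.finrank_self]
    have h3 : Module.finrank ℝ V = 3 := by simp [V]
    omega
  have heq : vectorSpan ℝ B = LinearMap.ker g :=
    Submodule.eq_of_le_of_finrank_eq hle (by rw [hB, hker])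
  have hBne : B.Nonempty := by
    by_contra h
    rw [Set.not_nonempty_iff_eq_empty] at h
    rw [h, vectorSpan_empty, finrank_bot] at hB
    exact absurd hB (by norm_num)
  obtain ⟨b, hb⟩ := hBne
  apply ha
  have h1 : a - b ∈ vectorSpan ℝ B := by
    rw [heq, LinearMap.mem_ker, map_sub, haQ, hBQ b hb, sub_self]
  have h2 : (a - b) +ᵥ b ∈ affineSpan ℝ B :=
    AffineSubspace.vadd_mem_of_mem_direction (by rwa [direction_affineSpan])
      (subset_affineSpan ℝ B hb)
  simpa using h2

theorem six_not_pyramid {Q : Set V} (p u v w : V) (t : ℝ) (ht : t ≠ 0)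
    (hspan : ∀ W : Submodule ℝ V, u ∈ W → v ∈ W → w ∈ W → W = ⊤)
    (hu : u ≠ 0) (hv : v ≠ 0) (hw : w ≠ 0) (huv : u + v ≠ 0) (huv' : u - v ≠ 0)
    (h1 : v + t • w ≠ 0) (h2 : u + v + t • w ≠ 0) (h3 : u - (v + t • w) ≠ 0)
    (h5 : u + t • w ≠ 0) (h6 : u - t • w ≠ 0)
    (hA : p ∈ Set.extremePoints ℝ Q) (hB : p + u ∈ Set.extremePoints ℝ Q)
    (hC : p + v ∈ Set.extremePoints ℝ Q) (hD : p + u + v ∈ Set.extremePoints ℝ Q)
    (hE : p + v + t • w ∈ Set.extremePoints ℝ Q)
    (hF : p + u + v + t • w ∈ Set.extremePoints ℝ Q) : ¬ IsPyramid Q := by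
  rintro ⟨B, a, _, hBdim, _, rfl⟩
  have hsub := extremePoints_convexHull_subset (𝕜 := ℝ) (A := insert a B)
  have kA := hsub hA
  have kB := hsub hB
  have kC := hsub hC
  have kD := hsub hD
  have kE := hsub hE
  have kF := hsub hF
  have htw : t • w ≠ 0 := smul_ne_zero ht hw
  -- full dimension gives a contradiction
  have fin : ∀ x1 x2 y1 y2 z1 z2 : V, x1 ∈ B → x2 ∈ B → y1 ∈ B → y2 ∈ B → z1 ∈ B → z2 ∈ B →
      x1 - x2 = u → y1 - y2 = v → z1 - z2 = t • w → False := by
    intro x1 x2 y1 y2 z1 z2 a1 a2 a3 a4 a5 a6 e1 e2 e3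
    have m1 : u ∈ vectorSpan ℝ B := by rw [← e1]; exact vsub_mem_vectorSpan ℝ a1 a2
    have m2 : v ∈ vectorSpan ℝ B := by rw [← e2]; exact vsub_mem_vectorSpan ℝ a3 a4
    have m3 : t • w ∈ vectorSpan ℝ B := by rw [← e3]; exact vsub_mem_vectorSpan ℝ a5 a6
    have m4 : w ∈ vectorSpan ℝ B := by
      have := Submodule.smul_mem (vectorSpan ℝ B) t⁻¹ m3
      rwa [smul_smul, inv_mul_cancel₀ ht, one_smul] at this
    have := hspan _ m1 m2 m4
    rw [this, finrank_top] at hBdim
    simp [V] at hBdim
  have fin' : ∀ x1 x2 y1 y2 z1 z2 : V, x1 ∈ B → x2 ∈ B → y1 ∈ B → y2 ∈ B → z1 ∈ B → z2 ∈ B →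
      x1 - x2 = u → y1 - y2 = v → z1 - z2 = u + v + t • w → False := by
    intro x1 x2 y1 y2 z1 z2 a1 a2 a3 a4 a5 a6 e1 e2 e3
    have m1 : u ∈ vectorSpan ℝ B := by rw [← e1]; exact vsub_mem_vectorSpan ℝ a1 a2
    have m2 : v ∈ vectorSpan ℝ B := by rw [← e2]; exact vsub_mem_vectorSpan ℝ a3 a4
    have m3 : u + v + t • w ∈ vectorSpan ℝ B := by
      rw [← e3]; exact vsub_mem_vectorSpan ℝ a5 a6
    have m3' : t • w ∈ vectorSpan ℝ B := by
      have := Submodule.sub_mem _ m3 (Submodule.add_mem _ m1 m2)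
      simpa using this
    have m4 : w ∈ vectorSpan ℝ B := by
      have := Submodule.smul_mem (vectorSpan ℝ B) t⁻¹ m3'
      rwa [smul_smul, inv_mul_cancel₀ ht, one_smul] at this
    have := hspan _ m1 m2 m4
    rw [this, finrank_top] at hBdim
    simp [V] at hBdim
  -- at most one of the six points is the apex
  have key : ∀ x y : V, x ∈ insert a B → y ∈ insert a B → x - y ≠ 0 → x ∈ B ∨ y ∈ B := by
    intro x y hx hy hne
    rcases hx with rfl | hx
    · rcases hy with rfl | hy
      · simp at hne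
      · exact Or.inr hy
    · exact Or.inl hx
  by_cases iA : p ∈ B
  · by_cases iB : p + u ∈ B
    · by_cases iC : p + v ∈ B
      · by_cases iE : p + v + t • w ∈ B
        · exact fin (p + u) p (p + v) p (p + v + t • w) (p + v) iB iA iC iA iE iC
            (by abel) (by abel) (by abel)
        · have iF : p + u + v + t • w ∈ B := by
            rcases key _ _ kE kF (by
              have : p + v + t • w - (p + u + v + t • w) = - u := by abel
              rw [this]; exact neg_ne_zero.2 hu) with h | h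
            · exact absurd h iE
            · exact h
          exact fin' (p + u) p (p + v) p (p + u + v + t • w) p iB iA iC iA iF iA
            (by abel) (by abel) (by abel)
      · have iD : p + u + v ∈ B := by
          rcases key _ _ kC kD (by
            have : p + v - (p + u + v) = - u := by abel
            rw [this]; exact neg_ne_zero.2 hu) with h | h
          · exact absurd h iC
          · exact h
        have iF : p + u + v + t • w ∈ B := by
          rcases key _ _ kC kF (by
            have : p + v - (p + u + v + t • w) = - (u + t • w) := by abel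
            rw [this]; exact neg_ne_zero.2 h5) with h | h
          · exact absurd h iC
          · exact h
        exact fin (p + u) p (p + u + v) (p + u) (p + u + v + t • w) (p + u + v) iB iA iD iB iF iD
            (by abel) (by abel) (by abel)
    · have iC : p + v ∈ B := by
        rcases key _ _ kB kC (by
          have : p + u - (p + v) = u - v := by abel
          rw [this]; exact huv') with h | h
        · exact absurd h iB
        · exact h
      have iD : p + u + v ∈ B := by
        rcases key _ _ kB kD (by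
          have : p + u - (p + u + v) = - v := by abel
          rw [this]; exact neg_ne_zero.2 hv) with h | h
        · exact absurd h iB
        · exact h
      have iE : p + v + t • w ∈ B := by
        rcases key _ _ kB kE (by
          have : p + u - (p + v + t • w) = u - (v + t • w) := by abel
          rw [this]; exact h3) with h | h
        · exact absurd h iB
        · exact h
      exact fin (p + u + v) (p + v) (p + v) p (p + v + t • w) (p + v) iD iC iC iA iE iC
            (by abel) (by abel) (by abel)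
  · have iB : p + u ∈ B := by
      rcases key _ _ kA kB (by
        have : p - (p + u) = - u := by abel
        rw [this]; exact neg_ne_zero.2 hu) with h | h
      · exact absurd h iA
      · exact h
    have iC : p + v ∈ B := by
      rcases key _ _ kA kC (by
        have : p - (p + v) = - v := by abel
        rw [this]; exact neg_ne_zero.2 hv) with h | h
      · exact absurd h iA
      · exact h
    have iD : p + u + v ∈ B := by
      rcases key _ _ kA kD (by
        have : p - (p + u + v) = - (u + v) := by abel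
        rw [this]; exact neg_ne_zero.2 huv) with h | h
      · exact absurd h iA
      · exact h
    have iF : p + u + v + t • w ∈ B := by
      rcases key _ _ kA kF (by
        have : p - (p + u + v + t • w) = - (u + v + t • w) := by abel
        rw [this]; exact neg_ne_zero.2 h2) with h | h
      · exact absurd h iA
      · exact h
    exact fin (p + u + v) (p + v) (p + u + v) (p + u) (p + u + v + t • w) (p + u + v) iD iC iD iB
      iF iD (by abel) (by abel) (by abel)

/-- points of a subset of the cube with all coordinates 0 or 1 are extreme -/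
theorem ext_vertex {Q : Set V} (hQ : Q ⊆ Cube) (q : V) (hq : q ∈ Q) (h : ∀ i, q i = 0 ∨ q i = 1) :
    q ∈ Set.extremePoints ℝ Q := by
  rw [mem_extremePoints_iff_left]
  refine ⟨hq, ?_⟩
  rintro x hx y hy ⟨a, b, ha, hb, hab, hxy⟩
  funext i
  have hi : a * x i + b * y i = q i := by
    have := congrFun hxy i
    simpa using this
  have h1 := hQ hx i
  have h2 := hQ hy i
  have ha' : a = 1 - b := by linarith
  rcases h i with h0 | h0
  · rw [h0] at hi ⊢
    have : a * x i ≤ 0 := by nlinarith [mul_nonneg hb.le h2.1]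
    nlinarith [mul_nonneg ha.le h1.1, h1.1]
  · rw [h0] at hi ⊢
    have : a * (1 - x i) ≤ 0 := by nlinarith [mul_nonneg hb.le (sub_nonneg.2 h2.2)]
    nlinarith [mul_nonneg ha.le (sub_nonneg.2 h1.2), h1.2]

/-- the cut piece along the side x0 is not a pyramid -/
theorem side_x0 (t : ℝ) (ht0 : 0 < t) (ht1 : t ≤ 1/2) {Q : Set V}
    (hQ : ∀ x, x ∈ Q ↔ x ∈ Cube ∧ x 0 ≤ t * x 2) : ¬ IsPyramid Q := by
  have hsub : Q ⊆ Cube := fun x hx => ((hQ x).1 hx).1
  refine six_not_pyramid (Q := Q) ![0,0,0] ![0,1,0] ![0,0,1] ![1,0,0] t ht0.ne' ?_ ?_ ?_ ?_ ?_ ?_ ?_ ?_ ?_ ?_ ?_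
    ?_ ?_ ?_ ?_ ?_ ?_
  · intro W hu hv hw
    rw [eq_top_iff]
    intro x _
    have : x = (x 1) • ![0,1,0] + (x 2) • ![0,0,1] + (x 0) • ![1,0,0] := by
      funext i; fin_cases i <;> simp
    rw [this]
    exact W.add_mem (W.add_mem (W.smul_mem _ hu) (W.smul_mem _ hv)) (W.smul_mem _ hw)
  · intro h; have := congrFun h 1; simp at this
  · intro h; have := congrFun h 2; simp at this
  · intro h; have := congrFun h 0; simp at this
  · intro h; have := congrFun h 2; simp at this
  · intro h; have := congrFun h 2; simp at this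
  · intro h; have := congrFun h 2; simp at this
  · intro h; have := congrFun h 2; simp at this
  · intro h; have := congrFun h 2; simp at this
  · intro h; have := congrFun h 1; simp at this
  · intro h; have := congrFun h 1; simp at this
  · apply ext_vertex hsub
    · rw [hQ]; refine ⟨?_, ?_⟩
      · intro i; fin_cases i <;> simp
      · simp
    · intro i; fin_cases i <;> simp
  · apply ext_vertex hsub
    · rw [hQ]; refine ⟨?_, ?_⟩
      · intro i; fin_cases i <;> simp
      · simp
    · intro i; fin_cases i <;> simp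
  · apply ext_vertex hsub
    · rw [hQ]; refine ⟨?_, ?_⟩
      · intro i; fin_cases i <;> simp
      · simp [ht0.le]
    · intro i; fin_cases i <;> simp
  · apply ext_vertex hsub
    · rw [hQ]; refine ⟨?_, ?_⟩
      · intro i; fin_cases i <;> simp
      · simp [ht0.le]
    · intro i; fin_cases i <;> simp
  · rw [mem_extremePoints_iff_left]
    refine ⟨?_, ?_⟩
    · rw [hQ]; refine ⟨?_, ?_⟩
      · intro i; fin_cases i <;> simp <;> (try constructor) <;> linarith
      · simp
    · rintro x hx y hy ⟨a, b, ha, hb, hab, hxy⟩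
      obtain ⟨hx1, hx2⟩ := (hQ x).1 hx
      obtain ⟨hy1, hy2⟩ := (hQ y).1 hy
      have e0 := congrFun hxy 0
      have e1 := congrFun hxy 1
      have e2 := congrFun hxy 2
      simp at e0 e1 e2
      have x0 := hx1 0
      have x1 := hx1 1
      have x2 := hx1 2
      have y0 := hy1 0
      have y1 := hy1 1
      have y2 := hy1 2
      have ha' : a = 1 - b := by linarith
      have f2 : x 2 = 1 := by
        have : a * (1 - x 2) ≤ 0 := by nlinarith [mul_nonneg hb.le (sub_nonneg.2 y2.2)]
        nlinarith [mul_nonneg ha.le (sub_nonneg.2 x2.2)]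
      have f1 : x 1 = 0 := by
        have : a * x 1 ≤ 0 := by nlinarith [mul_nonneg hb.le y1.1]
        nlinarith [mul_nonneg ha.le x1.1]
      have g2 : y 2 ≤ 1 := y2.2
      have f0 : x 0 = t := by
        have h1 : x 0 ≤ t := by rw [f2] at hx2; linarith
        have h2 : y 0 ≤ t := by nlinarith
        have : a * (t - x 0) ≤ 0 := by nlinarith [mul_nonneg hb.le (sub_nonneg.2 h2)]
        nlinarith [mul_nonneg ha.le (sub_nonneg.2 h1)]
      funext i
      fin_cases i <;> simp <;> linarith
  · rw [mem_extremePoints_iff_left]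
    refine ⟨?_, ?_⟩
    · rw [hQ]; refine ⟨?_, ?_⟩
      · intro i; fin_cases i <;> simp <;> (try constructor) <;> linarith
      · simp
    · rintro x hx y hy ⟨a, b, ha, hb, hab, hxy⟩
      obtain ⟨hx1, hx2⟩ := (hQ x).1 hx
      obtain ⟨hy1, hy2⟩ := (hQ y).1 hy
      have e0 := congrFun hxy 0
      have e1 := congrFun hxy 1
      have e2 := congrFun hxy 2
      simp at e0 e1 e2
      have x0 := hx1 0
      have x1 := hx1 1
      have x2 := hx1 2
      have y0 := hy1 0
      have y1 := hy1 1
      have y2 := hy1 2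
      have ha' : a = 1 - b := by linarith
      have f2 : x 2 = 1 := by
        have : a * (1 - x 2) ≤ 0 := by nlinarith [mul_nonneg hb.le (sub_nonneg.2 y2.2)]
        nlinarith [mul_nonneg ha.le (sub_nonneg.2 x2.2)]
      have f1 : x 1 = 1 := by
        have : a * (1 - x 1) ≤ 0 := by nlinarith [mul_nonneg hb.le (sub_nonneg.2 y1.2)]
        nlinarith [mul_nonneg ha.le (sub_nonneg.2 x1.2)]
      have g2 : y 2 ≤ 1 := y2.2
      have f0 : x 0 = t := by
        have h1 : x 0 ≤ t := by rw [f2] at hx2; linarith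
        have h2 : y 0 ≤ t := by nlinarith
        have : a * (t - x 0) ≤ 0 := by nlinarith [mul_nonneg hb.le (sub_nonneg.2 h2)]
        nlinarith [mul_nonneg ha.le (sub_nonneg.2 h1)]
      funext i
      fin_cases i <;> simp <;> linarith

/-- the cut piece along the side x1 is not a pyramid -/
theorem side_x1 (t : ℝ) (ht0 : 0 < t) (ht1 : t ≤ 1/2) {Q : Set V}
    (hQ : ∀ x, x ∈ Q ↔ x ∈ Cube ∧ 1 - x 0 ≤ t * x 2) : ¬ IsPyramid Q := by
  have hsub : Q ⊆ Cube := fun x hx => ((hQ x).1 hx).1
  refine six_not_pyramid (Q := Q) ![1,0,0] ![0,1,0] ![0,0,1] ![-1,0,0] t ht0.ne' ?_ ?_ ?_ ?_ ?_ ?_ ?_ ?_ ?_ ?_ ?_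
    ?_ ?_ ?_ ?_ ?_ ?_
  · intro W hu hv hw
    rw [eq_top_iff]
    intro x _
    have : x = (x 1) • ![0,1,0] + (x 2) • ![0,0,1] + (-x 0) • ![-1,0,0] := by
      funext i; fin_cases i <;> simp
    rw [this]
    exact W.add_mem (W.add_mem (W.smul_mem _ hu) (W.smul_mem _ hv)) (W.smul_mem _ hw)
  · intro h; have := congrFun h 1; simp at this
  · intro h; have := congrFun h 2; simp at this
  · intro h; have := congrFun h 0; simp at this
  · intro h; have := congrFun h 2; simp at this
  · intro h; have := congrFun h 2; simp at this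
  · intro h; have := congrFun h 2; simp at this
  · intro h; have := congrFun h 2; simp at this
  · intro h; have := congrFun h 2; simp at this
  · intro h; have := congrFun h 1; simp at this
  · intro h; have := congrFun h 1; simp at this
  · apply ext_vertex hsub
    · rw [hQ]; refine ⟨?_, ?_⟩
      · intro i; fin_cases i <;> simp
      · simp
    · intro i; fin_cases i <;> simp
  · apply ext_vertex hsub
    · rw [hQ]; refine ⟨?_, ?_⟩
      · intro i; fin_cases i <;> simp
      · simp
    · intro i; fin_cases i <;> simp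
  · apply ext_vertex hsub
    · rw [hQ]; refine ⟨?_, ?_⟩
      · intro i; fin_cases i <;> simp
      · simp [ht0.le]
    · intro i; fin_cases i <;> simp
  · apply ext_vertex hsub
    · rw [hQ]; refine ⟨?_, ?_⟩
      · intro i; fin_cases i <;> simp
      · simp [ht0.le]
    · intro i; fin_cases i <;> simp
  · rw [mem_extremePoints_iff_left]
    refine ⟨?_, ?_⟩
    · rw [hQ]; refine ⟨?_, ?_⟩
      · intro i; fin_cases i <;> simp <;> (try constructor) <;> linarith
      · simp
    · rintro x hx y hy ⟨a, b, ha, hb, hab, hxy⟩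
      obtain ⟨hx1, hx2⟩ := (hQ x).1 hx
      obtain ⟨hy1, hy2⟩ := (hQ y).1 hy
      have e0 := congrFun hxy 0
      have e1 := congrFun hxy 1
      have e2 := congrFun hxy 2
      simp at e0 e1 e2
      have x0 := hx1 0
      have x1 := hx1 1
      have x2 := hx1 2
      have y0 := hy1 0
      have y1 := hy1 1
      have y2 := hy1 2
      have ha' : a = 1 - b := by linarith
      have f2 : x 2 = 1 := by
        have : a * (1 - x 2) ≤ 0 := by nlinarith [mul_nonneg hb.le (sub_nonneg.2 y2.2)]
        nlinarith [mul_nonneg ha.le (sub_nonneg.2 x2.2)]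
      have f1 : x 1 = 0 := by
        have : a * x 1 ≤ 0 := by nlinarith [mul_nonneg hb.le y1.1]
        nlinarith [mul_nonneg ha.le x1.1]
      have g2 : y 2 ≤ 1 := y2.2
      have f0 : 1 - x 0 = t := by
        have h1 : 1 - x 0 ≤ t := by rw [f2] at hx2; linarith
        have h2 : 1 - y 0 ≤ t := by nlinarith
        have : a * (t - 1 - x 0) ≤ 0 := by nlinarith [mul_nonneg hb.le (sub_nonneg.2 h2)]
        nlinarith [mul_nonneg ha.le (sub_nonneg.2 h1)]
      funext i
      fin_cases i <;> simp <;> linarith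
  · rw [mem_extremePoints_iff_left]
    refine ⟨?_, ?_⟩
    · rw [hQ]; refine ⟨?_, ?_⟩
      · intro i; fin_cases i <;> simp <;> (try constructor) <;> linarith
      · simp
    · rintro x hx y hy ⟨a, b, ha, hb, hab, hxy⟩
      obtain ⟨hx1, hx2⟩ := (hQ x).1 hx
      obtain ⟨hy1, hy2⟩ := (hQ y).1 hy
      have e0 := congrFun hxy 0
      have e1 := congrFun hxy 1
      have e2 := congrFun hxy 2
      simp at e0 e1 e2
      have x0 := hx1 0
      have x1 := hx1 1
      have x2 := hx1 2
      have y0 := hy1 0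
      have y1 := hy1 1
      have y2 := hy1 2
      have ha' : a = 1 - b := by linarith
      have f2 : x 2 = 1 := by
        have : a * (1 - x 2) ≤ 0 := by nlinarith [mul_nonneg hb.le (sub_nonneg.2 y2.2)]
        nlinarith [mul_nonneg ha.le (sub_nonneg.2 x2.2)]
      have f1 : x 1 = 1 := by
        have : a * (1 - x 1) ≤ 0 := by nlinarith [mul_nonneg hb.le (sub_nonneg.2 y1.2)]
        nlinarith [mul_nonneg ha.le (sub_nonneg.2 x1.2)]
      have g2 : y 2 ≤ 1 := y2.2
      have f0 : 1 - x 0 = t := by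
        have h1 : 1 - x 0 ≤ t := by rw [f2] at hx2; linarith
        have h2 : 1 - y 0 ≤ t := by nlinarith
        have : a * (t - 1 - x 0) ≤ 0 := by nlinarith [mul_nonneg hb.le (sub_nonneg.2 h2)]
        nlinarith [mul_nonneg ha.le (sub_nonneg.2 h1)]
      funext i
      fin_cases i <;> simp <;> linarith

/-- the cut piece along the side y0 is not a pyramid -/
theorem side_y0 (t : ℝ) (ht0 : 0 < t) (ht1 : t ≤ 1/2) {Q : Set V}
    (hQ : ∀ x, x ∈ Q ↔ x ∈ Cube ∧ x 1 ≤ t * x 2) : ¬ IsPyramid Q := by
  have hsub : Q ⊆ Cube := fun x hx => ((hQ x).1 hx).1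
  refine six_not_pyramid (Q := Q) ![0,0,0] ![1,0,0] ![0,0,1] ![0,1,0] t ht0.ne' ?_ ?_ ?_ ?_ ?_ ?_ ?_ ?_ ?_ ?_ ?_
    ?_ ?_ ?_ ?_ ?_ ?_
  · intro W hu hv hw
    rw [eq_top_iff]
    intro x _
    have : x = (x 0) • ![1,0,0] + (x 2) • ![0,0,1] + (x 1) • ![0,1,0] := by
      funext i; fin_cases i <;> simp
    rw [this]
    exact W.add_mem (W.add_mem (W.smul_mem _ hu) (W.smul_mem _ hv)) (W.smul_mem _ hw)
  · intro h; have := congrFun h 0; simp at this
  · intro h; have := congrFun h 2; simp at this
  · intro h; have := congrFun h 1; simp at this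
  · intro h; have := congrFun h 2; simp at this
  · intro h; have := congrFun h 2; simp at this
  · intro h; have := congrFun h 2; simp at this
  · intro h; have := congrFun h 2; simp at this
  · intro h; have := congrFun h 2; simp at this
  · intro h; have := congrFun h 0; simp at this
  · intro h; have := congrFun h 0; simp at this
  · apply ext_vertex hsub
    · rw [hQ]; refine ⟨?_, ?_⟩
      · intro i; fin_cases i <;> simp
      · simp
    · intro i; fin_cases i <;> simp
  · apply ext_vertex hsub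
    · rw [hQ]; refine ⟨?_, ?_⟩
      · intro i; fin_cases i <;> simp
      · simp
    · intro i; fin_cases i <;> simp
  · apply ext_vertex hsub
    · rw [hQ]; refine ⟨?_, ?_⟩
      · intro i; fin_cases i <;> simp
      · simp [ht0.le]
    · intro i; fin_cases i <;> simp
  · apply ext_vertex hsub
    · rw [hQ]; refine ⟨?_, ?_⟩
      · intro i; fin_cases i <;> simp
      · simp [ht0.le]
    · intro i; fin_cases i <;> simp
  · rw [mem_extremePoints_iff_left]
    refine ⟨?_, ?_⟩
    · rw [hQ]; refine ⟨?_, ?_⟩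
      · intro i; fin_cases i <;> simp <;> (try constructor) <;> linarith
      · simp
    · rintro x hx y hy ⟨a, b, ha, hb, hab, hxy⟩
      obtain ⟨hx1, hx2⟩ := (hQ x).1 hx
      obtain ⟨hy1, hy2⟩ := (hQ y).1 hy
      have e0 := congrFun hxy 0
      have e1 := congrFun hxy 1
      have e2 := congrFun hxy 2
      simp at e0 e1 e2
      have x0 := hx1 0
      have x1 := hx1 1
      have x2 := hx1 2
      have y0 := hy1 0
      have y1 := hy1 1
      have y2 := hy1 2
      have ha' : a = 1 - b := by linarith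
      have f2 : x 2 = 1 := by
        have : a * (1 - x 2) ≤ 0 := by nlinarith [mul_nonneg hb.le (sub_nonneg.2 y2.2)]
        nlinarith [mul_nonneg ha.le (sub_nonneg.2 x2.2)]
      have f1 : x 0 = 0 := by
        have : a * x 0 ≤ 0 := by nlinarith [mul_nonneg hb.le y0.1]
        nlinarith [mul_nonneg ha.le x0.1]
      have g2 : y 2 ≤ 1 := y2.2
      have f0 : x 1 = t := by
        have h1 : x 1 ≤ t := by rw [f2] at hx2; linarith
        have h2 : y 1 ≤ t := by nlinarith
        have : a * (t - x 1) ≤ 0 := by nlinarith [mul_nonneg hb.le (sub_nonneg.2 h2)]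
        nlinarith [mul_nonneg ha.le (sub_nonneg.2 h1)]
      funext i
      fin_cases i <;> simp <;> linarith
  · rw [mem_extremePoints_iff_left]
    refine ⟨?_, ?_⟩
    · rw [hQ]; refine ⟨?_, ?_⟩
      · intro i; fin_cases i <;> simp <;> (try constructor) <;> linarith
      · simp
    · rintro x hx y hy ⟨a, b, ha, hb, hab, hxy⟩
      obtain ⟨hx1, hx2⟩ := (hQ x).1 hx
      obtain ⟨hy1, hy2⟩ := (hQ y).1 hy
      have e0 := congrFun hxy 0
      have e1 := congrFun hxy 1
      have e2 := congrFun hxy 2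
      simp at e0 e1 e2
      have x0 := hx1 0
      have x1 := hx1 1
      have x2 := hx1 2
      have y0 := hy1 0
      have y1 := hy1 1
      have y2 := hy1 2
      have ha' : a = 1 - b := by linarith
      have f2 : x 2 = 1 := by
        have : a * (1 - x 2) ≤ 0 := by nlinarith [mul_nonneg hb.le (sub_nonneg.2 y2.2)]
        nlinarith [mul_nonneg ha.le (sub_nonneg.2 x2.2)]
      have f1 : x 0 = 1 := by
        have : a * (1 - x 0) ≤ 0 := by nlinarith [mul_nonneg hb.le (sub_nonneg.2 y0.2)]
        nlinarith [mul_nonneg ha.le (sub_nonneg.2 x0.2)]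
      have g2 : y 2 ≤ 1 := y2.2
      have f0 : x 1 = t := by
        have h1 : x 1 ≤ t := by rw [f2] at hx2; linarith
        have h2 : y 1 ≤ t := by nlinarith
        have : a * (t - x 1) ≤ 0 := by nlinarith [mul_nonneg hb.le (sub_nonneg.2 h2)]
        nlinarith [mul_nonneg ha.le (sub_nonneg.2 h1)]
      funext i
      fin_cases i <;> simp <;> linarith

/-- the cut piece along the side y1 is not a pyramid -/
theorem side_y1 (t : ℝ) (ht0 : 0 < t) (ht1 : t ≤ 1/2) {Q : Set V}
    (hQ : ∀ x, x ∈ Q ↔ x ∈ Cube ∧ 1 - x 1 ≤ t * x 2) : ¬ IsPyramid Q := by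
  have hsub : Q ⊆ Cube := fun x hx => ((hQ x).1 hx).1
  refine six_not_pyramid (Q := Q) ![0,1,0] ![1,0,0] ![0,0,1] ![0,-1,0] t ht0.ne' ?_ ?_ ?_ ?_ ?_ ?_ ?_ ?_ ?_ ?_ ?_
    ?_ ?_ ?_ ?_ ?_ ?_
  · intro W hu hv hw
    rw [eq_top_iff]
    intro x _
    have : x = (x 0) • ![1,0,0] + (x 2) • ![0,0,1] + (-x 1) • ![0,-1,0] := by
      funext i; fin_cases i <;> simp
    rw [this]
    exact W.add_mem (W.add_mem (W.smul_mem _ hu) (W.smul_mem _ hv)) (W.smul_mem _ hw)
  · intro h; have := congrFun h 0; simp at this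
  · intro h; have := congrFun h 2; simp at this
  · intro h; have := congrFun h 1; simp at this
  · intro h; have := congrFun h 2; simp at this
  · intro h; have := congrFun h 2; simp at this
  · intro h; have := congrFun h 2; simp at this
  · intro h; have := congrFun h 2; simp at this
  · intro h; have := congrFun h 2; simp at this
  · intro h; have := congrFun h 0; simp at this
  · intro h; have := congrFun h 0; simp at this
  · apply ext_vertex hsub
    · rw [hQ]; refine ⟨?_, ?_⟩
      · intro i; fin_cases i <;> simp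
      · simp
    · intro i; fin_cases i <;> simp
  · apply ext_vertex hsub
    · rw [hQ]; refine ⟨?_, ?_⟩
      · intro i; fin_cases i <;> simp
      · simp
    · intro i; fin_cases i <;> simp
  · apply ext_vertex hsub
    · rw [hQ]; refine ⟨?_, ?_⟩
      · intro i; fin_cases i <;> simp
      · simp [ht0.le]
    · intro i; fin_cases i <;> simp
  · apply ext_vertex hsub
    · rw [hQ]; refine ⟨?_, ?_⟩
      · intro i; fin_cases i <;> simp
      · simp [ht0.le]
    · intro i; fin_cases i <;> simp
  · rw [mem_extremePoints_iff_left]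
    refine ⟨?_, ?_⟩
    · rw [hQ]; refine ⟨?_, ?_⟩
      · intro i; fin_cases i <;> simp <;> (try constructor) <;> linarith
      · simp
    · rintro x hx y hy ⟨a, b, ha, hb, hab, hxy⟩
      obtain ⟨hx1, hx2⟩ := (hQ x).1 hx
      obtain ⟨hy1, hy2⟩ := (hQ y).1 hy
      have e0 := congrFun hxy 0
      have e1 := congrFun hxy 1
      have e2 := congrFun hxy 2
      simp at e0 e1 e2
      have x0 := hx1 0
      have x1 := hx1 1
      have x2 := hx1 2
      have y0 := hy1 0
      have y1 := hy1 1
      have y2 := hy1 2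
      have ha' : a = 1 - b := by linarith
      have f2 : x 2 = 1 := by
        have : a * (1 - x 2) ≤ 0 := by nlinarith [mul_nonneg hb.le (sub_nonneg.2 y2.2)]
        nlinarith [mul_nonneg ha.le (sub_nonneg.2 x2.2)]
      have f1 : x 0 = 0 := by
        have : a * x 0 ≤ 0 := by nlinarith [mul_nonneg hb.le y0.1]
        nlinarith [mul_nonneg ha.le x0.1]
      have g2 : y 2 ≤ 1 := y2.2
      have f0 : 1 - x 1 = t := by
        have h1 : 1 - x 1 ≤ t := by rw [f2] at hx2; linarith
        have h2 : 1 - y 1 ≤ t := by nlinarith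
        have : a * (t - 1 - x 1) ≤ 0 := by nlinarith [mul_nonneg hb.le (sub_nonneg.2 h2)]
        nlinarith [mul_nonneg ha.le (sub_nonneg.2 h1)]
      funext i
      fin_cases i <;> simp <;> linarith
  · rw [mem_extremePoints_iff_left]
    refine ⟨?_, ?_⟩
    · rw [hQ]; refine ⟨?_, ?_⟩
      · intro i; fin_cases i <;> simp <;> (try constructor) <;> linarith
      · simp
    · rintro x hx y hy ⟨a, b, ha, hb, hab, hxy⟩
      obtain ⟨hx1, hx2⟩ := (hQ x).1 hx
      obtain ⟨hy1, hy2⟩ := (hQ y).1 hy
      have e0 := congrFun hxy 0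
      have e1 := congrFun hxy 1
      have e2 := congrFun hxy 2
      simp at e0 e1 e2
      have x0 := hx1 0
      have x1 := hx1 1
      have x2 := hx1 2
      have y0 := hy1 0
      have y1 := hy1 1
      have y2 := hy1 2
      have ha' : a = 1 - b := by linarith
      have f2 : x 2 = 1 := by
        have : a * (1 - x 2) ≤ 0 := by nlinarith [mul_nonneg hb.le (sub_nonneg.2 y2.2)]
        nlinarith [mul_nonneg ha.le (sub_nonneg.2 x2.2)]
      have f1 : x 0 = 1 := by
        have : a * (1 - x 0) ≤ 0 := by nlinarith [mul_nonneg hb.le (sub_nonneg.2 y0.2)]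
        nlinarith [mul_nonneg ha.le (sub_nonneg.2 x0.2)]
      have g2 : y 2 ≤ 1 := y2.2
      have f0 : 1 - x 1 = t := by
        have h1 : 1 - x 1 ≤ t := by rw [f2] at hx2; linarith
        have h2 : 1 - y 1 ≤ t := by nlinarith
        have : a * (t - 1 - x 1) ≤ 0 := by nlinarith [mul_nonneg hb.le (sub_nonneg.2 h2)]
        nlinarith [mul_nonneg ha.le (sub_nonneg.2 h1)]
      funext i
      fin_cases i <;> simp <;> linarith


theorem finrank_ker_two (g : V →ₗ[ℝ] ℝ) (hg : g ≠ 0) :
    Module.finrank ℝ (LinearMap.ker g) = 2 := by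
  have h1 := LinearMap.finrank_range_add_finrank_ker g
  have h2 : Module.finrank ℝ (LinearMap.range g) = 1 := by
    have : LinearMap.range g = ⊤ := by
      rw [LinearMap.range_eq_top]
      exact LinearMap.surjective hg
    rw [this, finrank_top, Module.finrank_self]
  have h3 : Module.finrank ℝ V = 3 := by simp [V]
  omega

theorem coords (l : V →ₗ[ℝ] ℝ) : ∃ a b c : ℝ, ∀ x : V, l x = a * x 0 + b * x 1 + c * x 2 := by
  refine ⟨l ![1,0,0], l ![0,1,0], l ![0,0,1], fun x => ?_⟩
  have : x = (x 0) • ![1,0,0] + (x 1) • ![0,1,0] + (x 2) • ![0,0,1] := by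
    funext i; fin_cases i <;> simp
  calc l x = l ((x 0) • ![1,0,0] + (x 1) • ![0,1,0] + (x 2) • ![0,0,1]) := by rw [← this]
    _ = _ := by
      rw [map_add, map_add, map_smul, map_smul, map_smul]
      simp only [smul_eq_mul]
      ring

theorem cube_polyhedron : IsConvexPolyhedron Cube := by
  have h : Cube = convexHull ℝ (Set.univ.pi (fun _ : Fin 3 => ({0, 1} : Set ℝ))) := by
    rw [convexHull_pi Set.univ]
    ext x
    simp only [Cube, Set.mem_ofPred_eq, Set.mem_pi, Set.mem_univ, forall_true_left]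
    refine forall_congr' fun i => ?_
    rw [convexHull_pair, segment_eq_Icc (zero_le_one)]
    rfl
  refine ⟨?_, ?_⟩
  · have hf : (Set.univ.pi (fun _ : Fin 3 => ({0, 1} : Set ℝ))).Finite := by
      apply Set.Finite.pi
      intro i
      exact Set.toFinite _
    refine ⟨hf.toFinset, ?_⟩
    rw [Set.Finite.coe_toFinset, h]
  · refine ⟨![1/2,1/2,1/2], ?_⟩
    rw [mem_interior]
    refine ⟨Set.univ.pi (fun _ : Fin 3 => Set.Ioo (0:ℝ) 1), ?_, ?_, ?_⟩
    · intro x hx i
      have := hx i (Set.mem_univ _)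
      exact ⟨this.1.le, this.2.le⟩
    · exact isOpen_set_pi (Set.toFinite _) (fun _ _ => isOpen_Ioo)
    · intro i _
      fin_cases i <;> simp <;> norm_num

theorem mem_Pyr (x : V) : x ∈ Pyr ↔
    0 ≤ x 2 ∧ x 2 ≤ 2 * x 0 ∧ x 2 ≤ 2 * (1 - x 0) ∧ x 2 ≤ 2 * x 1 ∧ x 2 ≤ 2 * (1 - x 1) := by
  constructor
  · intro hx
    have hconv : Convex ℝ {x : V | 0 ≤ x 2 ∧ x 2 ≤ 2 * x 0 ∧ x 2 ≤ 2 * (1 - x 0) ∧
        x 2 ≤ 2 * x 1 ∧ x 2 ≤ 2 * (1 - x 1)} := by
      rintro x ⟨h1, h2, h3, h4, h5⟩ y ⟨k1, k2, k3, k4, k5⟩ a b ha hb hab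
      have hb' : b = 1 - a := by linarith
      subst hb'
      simp only [Set.mem_ofPred_eq, Pi.add_apply, Pi.smul_apply, smul_eq_mul]
      refine ⟨?_, ?_, ?_, ?_, ?_⟩
      · nlinarith [mul_nonneg ha h1, mul_nonneg hb k1]
      · nlinarith [mul_nonneg ha (sub_nonneg.2 h2), mul_nonneg hb (sub_nonneg.2 k2)]
      · nlinarith [mul_nonneg ha (sub_nonneg.2 h3), mul_nonneg hb (sub_nonneg.2 k3)]
      · nlinarith [mul_nonneg ha (sub_nonneg.2 h4), mul_nonneg hb (sub_nonneg.2 k4)]
      · nlinarith [mul_nonneg ha (sub_nonneg.2 h5), mul_nonneg hb (sub_nonneg.2 k5)]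
    have hsub : (verts : Set V) ⊆ {x : V | 0 ≤ x 2 ∧ x 2 ≤ 2 * x 0 ∧ x 2 ≤ 2 * (1 - x 0) ∧
        x 2 ≤ 2 * x 1 ∧ x 2 ≤ 2 * (1 - x 1)} := by
      intro y hy
      simp only [verts, Finset.coe_insert, Finset.coe_singleton, Set.mem_insert_iff,
        Set.mem_singleton_iff] at hy
      rcases hy with rfl | rfl | rfl | rfl | rfl <;> simp <;> norm_num
    exact convexHull_min hsub hconv hx
  · rintro ⟨h1, h2, h3, h4, h5⟩
    have hc : Convex ℝ Pyr := convex_convexHull ℝ _
    have hs : (verts : Set V) ⊆ Pyr := subset_convexHull ℝ _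
    have v0 : (![0,0,0] : V) ∈ Pyr := hs (by simp [verts])
    have v1 : (![1,0,0] : V) ∈ Pyr := hs (by simp [verts])
    have v2 : (![0,1,0] : V) ∈ Pyr := hs (by simp [verts])
    have v3 : (![1,1,0] : V) ∈ Pyr := hs (by simp [verts])
    have v4 : (![1/2,1/2,1] : V) ∈ Pyr := hs (by simp [verts])
    by_cases hx2 : x 2 = 1
    · have : x = ![1/2,1/2,1] := by
        funext i; fin_cases i <;> simp <;> linarith
      rw [this]; exact v4
    · have hlt : x 2 < 1 := lt_of_le_of_ne (by linarith) hx2
      have hpos : 0 < 1 - x 2 := by linarith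
      obtain ⟨u, hu⟩ : ∃ u, u = (x 0 - x 2 / 2) / (1 - x 2) := ⟨_, rfl⟩
      obtain ⟨v, hv⟩ : ∃ v, v = (x 1 - x 2 / 2) / (1 - x 2) := ⟨_, rfl⟩
      have hu' : u * (1 - x 2) = x 0 - x 2 / 2 := by
        rw [hu]; field_simp
      have hv' : v * (1 - x 2) = x 1 - x 2 / 2 := by
        rw [hv]; field_simp
      have hu0 : 0 ≤ u := by rw [hu]; apply div_nonneg <;> linarith
      have hv0 : 0 ≤ v := by rw [hv]; apply div_nonneg <;> linarith
      have hu1 : 0 ≤ 1 - u := by
        rw [hu, sub_nonneg, div_le_one hpos]; linarith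
      have hv1 : 0 ≤ 1 - v := by
        rw [hv, sub_nonneg, div_le_one hpos]; linarith
      have q1 := hc v0 v1 hu1 hu0 (by ring)
      have q2 := hc v2 v3 hu1 hu0 (by ring)
      have q3 := hc q1 q2 hv1 hv0 (by ring)
      have q4 := hc v4 q3 h1 hpos.le (by ring)
      have : x = x 2 • ![1/2,1/2,1] + (1 - x 2) • ((1 - v) • ((1 - u) • ![0,0,0] + u • ![1,0,0]) +
          v • ((1 - u) • ![0,1,0] + u • ![1,1,0])) := by
        funext i
        fin_cases i
        · simp
          linear_combination (-1) * hu'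
        · simp
          linear_combination (-1) * hv'
        · simp
      rw [this]
      exact q4

theorem Pyr_sub : Pyr ⊆ Cube := by
  intro x hx
  obtain ⟨h1, h2, h3, h4, h5⟩ := (mem_Pyr x).1 hx
  intro i
  fin_cases i <;> simp <;> constructor <;> linarith

theorem Bot_sub : Bot ⊆ Pyr := by
  rintro x ⟨hx, hx2⟩
  have h0 := hx 0
  have h1 := hx 1
  rw [mem_Pyr, hx2]
  refine ⟨le_rfl, ?_, ?_, ?_, ?_⟩ <;> linarith [h0.1, h0.2, h1.1, h1.2]

theorem pyr_polyhedron : IsConvexPolyhedron Pyr := by
  refine ⟨⟨verts, rfl⟩, ⟨![1/2,1/2,1/4], ?_⟩⟩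
  rw [mem_interior]
  refine ⟨{x : V | 0 < x 2 ∧ x 2 < 2 * x 0 ∧ x 2 < 2 * (1 - x 0) ∧ x 2 < 2 * x 1 ∧
      x 2 < 2 * (1 - x 1)}, ?_, ?_, ?_⟩
  · rintro x ⟨h1, h2, h3, h4, h5⟩
    rw [mem_Pyr]
    exact ⟨h1.le, h2.le, h3.le, h4.le, h5.le⟩
  · have o1 : IsOpen {x : V | 0 < x 2} := isOpen_lt (by fun_prop) (by fun_prop)
    have o2 : IsOpen {x : V | x 2 < 2 * x 0} := isOpen_lt (by fun_prop) (by fun_prop)
    have o3 : IsOpen {x : V | x 2 < 2 * (1 - x 0)} := isOpen_lt (by fun_prop) (by fun_prop)
    have o4 : IsOpen {x : V | x 2 < 2 * x 1} := isOpen_lt (by fun_prop) (by fun_prop)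
    have o5 : IsOpen {x : V | x 2 < 2 * (1 - x 1)} := isOpen_lt (by fun_prop) (by fun_prop)
    exact o1.inter (o2.inter (o3.inter (o4.inter o5)))
  · simp <;> norm_num

theorem proj_ne : (LinearMap.proj 2 : V →ₗ[ℝ] ℝ) ≠ 0 := by
  intro h
  have := LinearMap.congr_fun h ![0,0,1]
  simp at this

theorem bot_mem (x : V) (h0 : 0 ≤ x 0) (h0' : x 0 ≤ 1) (h1 : 0 ≤ x 1) (h1' : x 1 ≤ 1)
    (h2 : x 2 = 0) : x ∈ Bot := by
  refine ⟨?_, h2⟩
  intro i
  fin_cases i <;> simp <;> constructor <;> linarith

theorem finrank_bot_two : Module.finrank ℝ (vectorSpan ℝ Bot) = 2 := by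
  rw [← finrank_ker_two (LinearMap.proj 2) proj_ne]
  have : vectorSpan ℝ Bot = LinearMap.ker (LinearMap.proj 2 : V →ₗ[ℝ] ℝ) := by
    apply le_antisymm
    · rw [vectorSpan, Submodule.span_le]
      rintro _ ⟨x, hx, y, hy, rfl⟩
      simp [hx.2, hy.2]
    · intro x hx
      have hx2 : x 2 = 0 := by simpa using hx
      have z0 : (![0,0,0] : V) ∈ Bot := bot_mem _ (by simp) (by simp) (by simp) (by simp) (by simp)
      have z1 : (![1,0,0] : V) ∈ Bot := bot_mem _ (by simp) (by simp) (by simp) (by simp) (by simp)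
      have z2 : (![0,1,0] : V) ∈ Bot := bot_mem _ (by simp) (by simp) (by simp) (by simp) (by simp)
      have e : x = (x 0) • ((![1,0,0] : V) -ᵥ ![0,0,0]) + (x 1) • ((![0,1,0] : V) -ᵥ ![0,0,0]) := by
        funext i; fin_cases i <;> simp [hx2]
      rw [e]
      exact Submodule.add_mem _ (Submodule.smul_mem _ _ (vsub_mem_vectorSpan ℝ z1 z0))
        (Submodule.smul_mem _ _ (vsub_mem_vectorSpan ℝ z2 z0))
  rw [this]

theorem face_of (P : Set V) (h1 : P ⊆ Cube) (h2 : Bot ⊆ P) : IsFaceOfDim 2 P Bot := by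
  have z0 : (![0,0,0] : V) ∈ Bot := bot_mem _ (by simp) (by simp) (by simp) (by simp) (by simp)
  refine ⟨⟨_, z0⟩, ⟨-(LinearMap.proj 2 : V →ₗ[ℝ] ℝ), ?_⟩, finrank_bot_two⟩
  ext x
  constructor
  · intro hx
    refine ⟨h2 hx, fun y hy => ?_⟩
    have := (h1 hy 2).1
    simp [hx.2]
    exact this
  · rintro ⟨hx, hy⟩
    refine ⟨h1 hx, ?_⟩
    have k1 := hy _ (h2 z0)
    simp at k1
    exact le_antisymm k1 (h1 hx 2).1

theorem dome : IsGDome Pyr Bot := by
  refine ⟨pyr_polyhedron, face_of Pyr Pyr_sub Bot_sub, ?_⟩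
  rintro F ⟨⟨z, hz⟩, ⟨l, hl⟩, hdim⟩ _
  obtain ⟨a, b, c, hc⟩ := coords l
  have hFsub : F ⊆ Pyr := by rw [hl]; exact fun x hx => hx.1
  by_cases hlow : ∃ x ∈ F, x 2 < 1
  · obtain ⟨x, hxF, hx2⟩ := hlow
    obtain ⟨v, hv⟩ : ∃ v : V, v = ![if 0 < a then 1 else 0, if 0 < b then 1 else 0, 0] := ⟨_, rfl⟩
    have hvB : v ∈ Bot := by
      rw [hv]
      apply bot_mem
      · show (0:ℝ) ≤ (if 0 < a then (1:ℝ) else 0)
        split_ifs <;> norm_num
      · show (if 0 < a then (1:ℝ) else 0) ≤ 1
        split_ifs <;> norm_num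
      · show (0:ℝ) ≤ (if 0 < b then (1:ℝ) else 0)
        split_ifs <;> norm_num
      · show (if 0 < b then (1:ℝ) else 0) ≤ 1
        split_ifs <;> norm_num
      · rfl
    have hv01 : ∀ i, v i = 0 ∨ v i = 1 := by
      intro i
      rw [hv]
      fin_cases i
      · show (if 0 < a then (1:ℝ) else 0) = 0 ∨ (if 0 < a then (1:ℝ) else 0) = 1
        split_ifs <;> simp
      · show (if 0 < b then (1:ℝ) else 0) = 0 ∨ (if 0 < b then (1:ℝ) else 0) = 1
        split_ifs <;> simp
      · left; rfl
    have hxP := hFsub hxF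
    obtain ⟨k1, k2, k3, k4, k5⟩ := (mem_Pyr x).1 hxP
    have hmax : ∀ y ∈ Pyr, l y ≤ l x := by
      have : x ∈ {x | x ∈ Pyr ∧ ∀ y ∈ Pyr, l y ≤ l x} := by rw [← hl]; exact hxF
      exact this.2
    have hapex := hmax ![1/2,1/2,1] ((mem_Pyr _).2 (by simp <;> norm_num))
    rw [hc, hc x] at hapex
    simp at hapex
    have ha : a * x 0 ≤ x 2 * (a / 2) + (1 - x 2) * (a * v 0) := by
      have e : v 0 = if 0 < a then 1 else 0 := by rw [hv]; rfl
      rw [e]
      split_ifs with h
      · nlinarith
      · push Not at h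
        nlinarith
    have hb : b * x 1 ≤ x 2 * (b / 2) + (1 - x 2) * (b * v 1) := by
      have e : v 1 = if 0 < b then 1 else 0 := by rw [hv]; rfl
      rw [e]
      split_ifs with h
      · nlinarith
      · push Not at h
        nlinarith
    have hv2 : v 2 = 0 := hvB.2
    have hlv : l x ≤ l v := by
      rw [hc, hc v, hv2]
      have e1 : 0 < 1 - x 2 := by linarith
      have e2 : x 2 * (a * 2⁻¹ + b * 2⁻¹ + c) ≤ x 2 * (a * x 0 + b * x 1 + c * x 2) :=
        mul_le_mul_of_nonneg_left hapex k1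
      have e3 : (1 - x 2) * (a * x 0 + b * x 1 + c * x 2) ≤ (1 - x 2) * (a * v 0 + b * v 1 + c * 0) := by
        nlinarith
      exact le_of_mul_le_mul_left e3 e1
    have hvF : v ∈ F := by
      rw [hl]
      exact ⟨Bot_sub hvB, fun y hy => (hmax y hy).trans hlv⟩
    exact ⟨v, ext_vertex (hFsub.trans Pyr_sub) v hvF hv01,
      ext_vertex (Bot_sub.trans Pyr_sub) v hvB hv01⟩
  · exfalso
    push Not at hlow
    have hap : ∀ x ∈ F, x = ![1/2,1/2,1] := by
      intro x hx
      obtain ⟨k1, k2, k3, k4, k5⟩ := (mem_Pyr x).1 (hFsub hx)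
      have := hlow x hx
      funext i; fin_cases i <;> simp <;> linarith
    have hs : F.Subsingleton := fun x hx y hy => by rw [hap x hx, hap y hy]
    have : vectorSpan ℝ F = ⊥ := by
      rw [vectorSpan_eq_bot_iff_subsingleton] 
      exact hs
    rw [this, finrank_bot] at hdim
    exact absurd hdim (by norm_num)

/-- if the functional bounds the square and is attained at two different points of the square,
then one of the two horizontal coefficients vanishes -/
theorem edge_dir (a b c : ℝ) (h : ∀ u v : ℝ, 0 ≤ u → u ≤ 1 → 0 ≤ v → v ≤ 1 → a * u + b * v ≤ c)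
    (p0 p1 q0 q1 : ℝ) (hp0 : 0 ≤ p0) (hp0' : p0 ≤ 1) (hp1 : 0 ≤ p1) (hp1' : p1 ≤ 1)
    (hq0 : 0 ≤ q0) (hq0' : q0 ≤ 1) (hq1 : 0 ≤ q1) (hq1' : q1 ≤ 1)
    (hp : a * p0 + b * p1 = c) (hq : a * q0 + b * q1 = c) (hne : ¬ (p0 = q0 ∧ p1 = q1)) :
    a = 0 ∨ b = 0 := by
  by_contra hcon
  push Not at hcon
  obtain ⟨ha, hb⟩ := hcon
  have key : p0 = q0 := by
    rcases lt_or_gt_of_ne ha with ha | ha
    · have e1 := h 0 p1 le_rfl zero_le_one hp1 hp1'
      have e2 := h 0 q1 le_rfl zero_le_one hq1 hq1'
      have f1 : p0 = 0 := by nlinarith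
      have f2 : q0 = 0 := by nlinarith
      rw [f1, f2]
    · have e1 := h 1 p1 zero_le_one le_rfl hp1 hp1'
      have e2 := h 1 q1 zero_le_one le_rfl hq1 hq1'
      have f1 : p0 = 1 := by nlinarith
      have f2 : q0 = 1 := by nlinarith
      rw [f1, f2]
  apply hne
  refine ⟨key, ?_⟩
  have : b * (p1 - q1) = 0 := by rw [key] at hp; linarith
  rcases mul_eq_zero.1 this with h | h
  · exact absurd h hb
  · linarith

theorem no_cut (P' : Set V) : ¬ CutStep Bot Pyr Cube P' := by
  rintro ⟨l, c, E, hl0, ⟨⟨p, hp⟩, ⟨m, hm⟩, hdim⟩, hEc, hint, hpyr, _⟩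
  -- all of the pyramid is in `l ≤ c`
  have hle : ∀ x ∈ Pyr, l x ≤ c := by
    intro x hx
    have hconv : Convex ℝ Pyr := convex_convexHull ℝ _
    have h1 : closure (interior Pyr) = closure Pyr :=
      hconv.closure_interior_eq_closure_of_nonempty_interior pyr_polyhedron.2
    have h2 : x ∈ closure (interior Pyr) := by rw [h1]; exact subset_closure hx
    have h3 : IsClosed {x : V | l x ≤ c} :=
      isClosed_le (LinearMap.continuous_of_finiteDimensional l) continuous_const
    exact closure_minimal (fun y hy => (hint y hy).le) h3 h2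
  have hEB : E ⊆ Bot := by rw [hm]; exact fun x hx => hx.1
  -- a second point on the edge
  have hq : ∃ q ∈ E, q ≠ p := by
    by_contra hcon
    push Not at hcon
    have hs : E.Subsingleton := fun x hx y hy => by rw [hcon x hx, hcon y hy]
    have : vectorSpan ℝ E = ⊥ := by
      rw [vectorSpan_eq_bot_iff_subsingleton]
      exact hs
    rw [this, finrank_bot] at hdim
    exact absurd hdim (by norm_num)
  obtain ⟨q, hq, hqp⟩ := hq
  obtain ⟨a, b, d, hc⟩ := coords l
  have hpB := hEB hp
  have hqB := hEB hq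
  have hpc := hEc p hp
  have hqc := hEc q hq
  rw [hc, hpB.2] at hpc
  rw [hc, hqB.2] at hqc
  have p0 := hpB.1 0
  have p1 := hpB.1 1
  have q0 := hqB.1 0
  have q1 := hqB.1 1
  have hsq : ∀ u v : ℝ, 0 ≤ u → u ≤ 1 → 0 ≤ v → v ≤ 1 → a * u + b * v ≤ c := by
    intro u v hu hu' hv hv'
    have := hle ![u, v, 0] (Bot_sub (bot_mem _ (by simpa) (by simpa) (by simpa) (by simpa) (by simp)))
    rw [hc] at this
    simpa using this
  have hap := hle ![1/2,1/2,1] ((mem_Pyr _).2 (by simp <;> norm_num))
  rw [hc] at hap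
  simp at hap
  have hdir := edge_dir a b c hsq (p 0) (p 1) (q 0) (q 1) p0.1 p0.2 p1.1 p1.2 q0.1 q0.2 q1.1 q1.2
    (by linarith) (by linarith) (by
      rintro ⟨h0, h1⟩
      apply hqp
      funext i
      fin_cases i
      · exact h0.symm
      · exact h1.symm
      · show q 2 = p 2
        rw [hqB.2, hpB.2])
  -- membership in the cut piece
  have hQ : ∀ x, x ∈ {x | x ∈ Cube ∧ c ≤ l x} ↔ x ∈ Cube ∧ c ≤ a * x 0 + b * x 1 + d * x 2 := by
    intro x
    simp only [Set.mem_ofPred_eq, hc]
  have pr : ∀ i : Fin 3, (LinearMap.proj i : V →ₗ[ℝ] ℝ) ≠ 0 := by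
    intro i h
    have := LinearMap.congr_fun h (fun _ => 1)
    simp at this
  have s00 := hsq 0 0 le_rfl zero_le_one le_rfl zero_le_one
  have s10 := hsq 1 0 zero_le_one le_rfl le_rfl zero_le_one
  have s01 := hsq 0 1 le_rfl zero_le_one zero_le_one le_rfl
  rcases hdir with ha | hb
  · subst ha
    rcases lt_trichotomy b 0 with hb | hb | hb
    · -- b < 0, c = 0
      have hc0 : c = 0 := by nlinarith [p1.1]
      subst hc0
      rcases le_or_gt d 0 with hd | hd
      · refine planar_not_pyramid (LinearMap.proj 1) 0 (pr 1) ?_ hpyr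
        intro x hx
        obtain ⟨hx1, hx2⟩ := (hQ x).1 hx
        have := (hx1 1).1
        have := (hx1 2).1
        show x 1 = 0
        nlinarith
      · refine side_y0 (d / (-b)) (by apply div_pos <;> linarith) ?_ ?_ hpyr
        · rw [div_le_iff₀ (by linarith)]; linarith
        · intro x
          rw [hQ, div_mul_eq_mul_div, le_div_iff₀ (by linarith)]
          constructor
          · rintro ⟨k1, k2⟩; exact ⟨k1, by linarith⟩
          · rintro ⟨k1, k2⟩; exact ⟨k1, by linarith⟩
    · subst hb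
      have hc0 : c = 0 := by linarith
      subst hc0
      have hd : d < 0 := by
        have h1 : d ≤ 0 := by linarith
        rcases h1.lt_or_eq with h | h
        · exact h
        · exfalso
          apply hl0
          ext x
          simp [hc, h]
      refine planar_not_pyramid (LinearMap.proj 2) 0 (pr 2) ?_ hpyr
      intro x hx
      obtain ⟨hx1, hx2⟩ := (hQ x).1 hx
      have := (hx1 2).1
      show x 2 = 0
      nlinarith
    · -- b > 0, c = b
      have hc0 : c = b := by nlinarith [p1.2]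
      subst hc0
      rcases le_or_gt d 0 with hd | hd
      · refine planar_not_pyramid (LinearMap.proj 1) 1 (pr 1) ?_ hpyr
        intro x hx
        obtain ⟨hx1, hx2⟩ := (hQ x).1 hx
        have := (hx1 1).2
        have := (hx1 2).1
        show x 1 = 1
        nlinarith
      · refine side_y1 (d / c) (by positivity) ?_ ?_ hpyr
        · rw [div_le_iff₀ hb]; linarith
        · intro x
          rw [hQ, div_mul_eq_mul_div, le_div_iff₀ hb]
          constructor
          · rintro ⟨k1, k2⟩; exact ⟨k1, by linarith⟩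
          · rintro ⟨k1, k2⟩; exact ⟨k1, by linarith⟩
  · subst hb
    rcases lt_trichotomy a 0 with ha | ha | ha
    · have hc0 : c = 0 := by nlinarith [p0.1]
      subst hc0
      rcases le_or_gt d 0 with hd | hd
      · refine planar_not_pyramid (LinearMap.proj 0) 0 (pr 0) ?_ hpyr
        intro x hx
        obtain ⟨hx1, hx2⟩ := (hQ x).1 hx
        have := (hx1 0).1
        have := (hx1 2).1
        show x 0 = 0
        nlinarith
      · refine side_x0 (d / (-a)) (by apply div_pos <;> linarith) ?_ ?_ hpyr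
        · rw [div_le_iff₀ (by linarith)]; linarith
        · intro x
          rw [hQ, div_mul_eq_mul_div, le_div_iff₀ (by linarith)]
          constructor
          · rintro ⟨k1, k2⟩; exact ⟨k1, by linarith⟩
          · rintro ⟨k1, k2⟩; exact ⟨k1, by linarith⟩
    · subst ha
      have hc0 : c = 0 := by linarith
      subst hc0
      have hd : d < 0 := by
        have h1 : d ≤ 0 := by linarith
        rcases h1.lt_or_eq with h | h
        · exact h
        · exfalso
          apply hl0
          ext x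
          simp [hc, h]
      refine planar_not_pyramid (LinearMap.proj 2) 0 (pr 2) ?_ hpyr
      intro x hx
      obtain ⟨hx1, hx2⟩ := (hQ x).1 hx
      have := (hx1 2).1
      show x 2 = 0
      nlinarith
    · have hc0 : c = a := by nlinarith [p0.2]
      subst hc0
      rcases le_or_gt d 0 with hd | hd
      · refine planar_not_pyramid (LinearMap.proj 0) 1 (pr 0) ?_ hpyr
        intro x hx
        obtain ⟨hx1, hx2⟩ := (hQ x).1 hx
        have := (hx1 0).2
        have := (hx1 2).1
        show x 0 = 1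
        nlinarith
      · refine side_x1 (d / c) (by positivity) ?_ ?_ hpyr
        · rw [div_le_iff₀ ha]; linarith
        · intro x
          rw [hQ, div_mul_eq_mul_div, le_div_iff₀ ha]
          constructor
          · rintro ⟨k1, k2⟩; exact ⟨k1, by linarith⟩
          · rintro ⟨k1, k2⟩; exact ⟨k1, by linarith⟩

/-- There are a convex polyhedron `P`, a 2-face `X` of `P` and a g-dome `D ⊆ P` with base `X` such
that no finite admissible cutting sequence leads from `P` to `D`. -/
theorem result : ∃ P X D : Set V, IsConvexPolyhedron P ∧ IsFaceOfDim 2 P X ∧ IsGDome D X ∧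
    D ⊆ P ∧ ¬ Reducible X P D := by
  refine ⟨Cube, Bot, Pyr, cube_polyhedron, face_of Cube subset_rfl (Bot_sub.trans Pyr_sub), dome,
    Pyr_sub, ?_⟩
  intro h
  rcases Relation.ReflTransGen.cases_head h with h | ⟨P', h, _⟩
  · have h1 : (![0,0,1] : V) ∈ Cube := by
      intro i; fin_cases i <;> simp
    rw [h, mem_Pyr] at h1
    have := h1.2.1
    simp at this
    linarith
  · exact no_cut P' h

end Pool.Agent.Results.MP_3a21c3_co.CubeNoCut
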